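import Pool.Agent.W861.TF.Stm

/-! Project TF: integer points in the preimage of a box under a Hadamard matrix. -/

set_option autoImplicit false

namespace W320.TF

open Pool.Agent.W861.TF Finset

/-- number of integers in `[-2B, 2B]` in a residue class modulo `h` -/
private lemma res_count (h B : ℕ) (hh : 0 < h) (r : ZMod h) :
    ((Finset.Icc (-(2 * B : ℤ)) (2 * B)).filter (fun k : ℤ => (k : ZMod h) = r)).card
      ≤ 4 * B / h + 1 := by
  have hz : (0 : ℤ) < h := by exact_mod_cast hh
  have : (Finset.Icc (0 : ℤ) ((4 * B / h : ℕ) : ℤ)).card = 4 * B / h + 1 := by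
    rw [Int.card_Icc, sub_zero]; exact Int.toNat_natCast _
  rw [← this]
  refine Finset.card_le_card_of_injOn (fun k => (k + 2 * B) / h) ?_ ?_
  · intro k hk
    simp only [coe_filter, mem_Icc, Set.mem_ofPred_eq] at hk
    simp only [coe_Icc, Set.mem_Icc]
    constructor
    · exact Int.ediv_nonneg (by linarith [hk.1.1]) hz.le
    · push_cast
      exact Int.ediv_le_ediv hz (by linarith [hk.1.2])
  · intro k1 h1 k2 h2 he
    simp only [coe_filter, mem_Icc, Set.mem_ofPred_eq] at h1 h2
    simp only at he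
    have hc : ((k1 + 2 * B : ℤ) : ZMod h) = ((k2 + 2 * B : ℤ) : ZMod h) := by
      push_cast
      rw [h1.2, h2.2]
    have hm : (k1 + 2 * B) % (h : ℤ) = (k2 + 2 * B) % (h : ℤ) :=
      (ZMod.intCast_eq_intCast_iff' _ _ h).1 hc
    have e1 := Int.mul_ediv_add_emod (k1 + 2 * B) h
    have e2 := Int.mul_ediv_add_emod (k2 + 2 * B) h
    rw [he, hm] at e1
    linarith

private lemma core (h g B : ℕ) (hpos : 0 < h) (hgg : g * g = h) (H : Matrix (Fin h) (Fin h) ℤ)
    (hH : H * H = (h : ℤ) • (1 : Matrix _ _ ℤ)) (t : Fin h → ℝ) (T : Finset (Fin h → ℤ))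
    (hT : ∀ w ∈ T, ∀ x, |(∑ l, (H x l : ℝ) * (w l : ℝ)) + t x| ≤ (B : ℝ)) :
    T.card * g ^ h ≤ (4 * B + h) ^ h := by
  classical
  have : NeZero h := ⟨hpos.ne'⟩
  rcases T.eq_empty_or_nonempty with hTe | ⟨w0, hw0⟩
  · rw [hTe]; simp
  -- the map w ↦ H (w - w0)
  set u : (Fin h → ℤ) → (Fin h → ℤ) := fun w => H.mulVec (w - w0) with hu
  have hHu : ∀ w, H.mulVec (u w) = (h : ℤ) • (w - w0) := by
    intro w
    rw [hu]
    simp only
    rw [Matrix.mulVec_mulVec, hH, Matrix.smul_mulVec, Matrix.one_mulVec]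
  have hinj : Set.InjOn u (T : Set (Fin h → ℤ)) := by
    intro w1 _ w2 _ he
    have h1 := hHu w1
    rw [he, hHu w2] at h1
    have hz : (h : ℤ) ≠ 0 := by exact_mod_cast hpos.ne'
    have h2 := smul_right_injective (Fin h → ℤ) hz h1
    have h3 : w2 - w0 = w1 - w0 := h2
    exact (sub_left_injective h3).symm
  have hbox : ∀ w ∈ T, ∀ x, u w x ∈ Finset.Icc (-(2 * B : ℤ)) (2 * B) := by
    intro w hw x
    have h1 := hT w hw x
    have h2 := hT w0 hw0 x
    have e : ((u w x : ℤ) : ℝ) = ((∑ l, (H x l : ℝ) * (w l : ℝ)) + t x) -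
        ((∑ l, (H x l : ℝ) * (w0 l : ℝ)) + t x) := by
      rw [hu]
      simp only [Matrix.mulVec, dotProduct, Pi.sub_apply]
      push_cast
      simp only [mul_sub, Finset.sum_sub_distrib]
      ring
    have h3 : |((u w x : ℤ) : ℝ)| ≤ 2 * B := by
      rw [e]
      refine (abs_sub _ _).trans ?_
      linarith
    rw [abs_le] at h3
    rw [Finset.mem_Icc]
    constructor
    · have := h3.1
      exact_mod_cast this
    · have := h3.2
      exact_mod_cast this
  -- reduction modulo h
  set M : Matrix (Fin h) (Fin h) (ZMod h) := H.map (Int.cast) with hM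
  have hMM : M * M = 0 := by
    have h1 : (H * H).map (Int.castRingHom (ZMod h)) = M * M := by
      rw [Matrix.map_mul]; rfl
    rw [← h1, hH]
    ext i j
    rw [Matrix.map_apply, Matrix.smul_apply, smul_eq_mul, map_mul, eq_intCast, Int.cast_natCast,
      ZMod.natCast_self, zero_mul]
    rfl
  set f : (Fin h → ZMod h) →+ (Fin h → ZMod h) := (Matrix.mulVecLin M).toAddMonoidHom with hf
  have hfle : f.range ≤ f.ker := by
    rintro y ⟨x, rfl⟩
    rw [AddMonoidHom.mem_ker]
    change M.mulVec (M.mulVec x) = 0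
    rw [Matrix.mulVec_mulVec, hMM, Matrix.zero_mulVec]
  have hcard : Nat.card f.ker * Nat.card f.range = h ^ h := by
    rw [← AddSubgroup.index_ker, AddSubgroup.card_mul_index, Nat.card_fun, Nat.card_fin,
      Nat.card_zmod]
  have hle : Nat.card f.range ≤ Nat.card f.ker :=
    AddSubgroup.card_le_of_le hfle
  have hIm : Nat.card f.range ≤ g ^ h := by
    by_contra hcon
    push Not at hcon
    have h1 : g ^ h * g ^ h < Nat.card f.ker * Nat.card f.range := by
      calc g ^ h * g ^ h < Nat.card f.range * Nat.card f.range :=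
            Nat.mul_lt_mul'' hcon hcon
        _ ≤ _ := Nat.mul_le_mul_right _ hle
    rw [hcard, ← mul_pow, hgg] at h1
    exact lt_irrefl _ h1
  -- counting
  set U : Finset (Fin h → ℤ) := T.image u with hU
  have hUT : U.card = T.card := Finset.card_image_of_injOn hinj
  set red : (Fin h → ℤ) → (Fin h → ZMod h) := fun v x => (v x : ZMod h) with hred
  have hUim : (U.image red).card ≤ Nat.card f.range := by
    have : ((U.image red : Finset _) : Set (Fin h → ZMod h)) ⊆ (f.range : Set _) := by
      intro y hy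
      simp only [hU, coe_image, Set.mem_image, mem_coe] at hy
      obtain ⟨v, ⟨w, _, rfl⟩, rfl⟩ := hy
      refine ⟨fun x => ((w x - w0 x : ℤ) : ZMod h), ?_⟩
      change M.mulVec _ = _
      funext x
      simp only [hred, hu, hM, Matrix.mulVec, dotProduct, Matrix.map_apply, Pi.sub_apply]
      push_cast
      rfl
    calc (U.image red).card = Set.ncard ((U.image red : Finset _) : Set (Fin h → ZMod h)) :=
          (Set.ncard_coe_finset _).symm
      _ ≤ Set.ncard (f.range : Set (Fin h → ZMod h)) := Set.ncard_le_ncard this (Set.toFinite _)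
      _ = Nat.card f.range := rfl
  have hfib : U.card ≤ (4 * B / h + 1) ^ h * (U.image red).card := by
    refine Finset.card_le_mul_card_image U _ fun r _ => ?_
    have hsub : U.filter (fun v => red v = r) ⊆ Fintype.piFinset (fun x =>
        (Finset.Icc (-(2 * B : ℤ)) (2 * B)).filter (fun k : ℤ => (k : ZMod h) = r x)) := by
      intro v hv
      rw [Finset.mem_filter] at hv
      rw [Fintype.mem_piFinset]
      intro x
      rw [Finset.mem_filter]
      obtain ⟨hv1, hv2⟩ := hv
      rw [hU, Finset.mem_image] at hv1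
      obtain ⟨w, hw, rfl⟩ := hv1
      exact ⟨hbox w hw x, congrFun hv2 x⟩
    refine (Finset.card_le_card hsub).trans ?_
    rw [Fintype.card_piFinset]
    calc ∏ x : Fin h, ((Finset.Icc (-(2 * B : ℤ)) (2 * B)).filter
          (fun k : ℤ => (k : ZMod h) = r x)).card ≤ ∏ _x : Fin h, (4 * B / h + 1) :=
          Finset.prod_le_prod' fun x _ => res_count h B hpos (r x)
      _ = (4 * B / h + 1) ^ h := by rw [Finset.prod_const, Finset.card_univ, Fintype.card_fin]
  have hc2 : (4 * B / h + 1) * h ≤ 4 * B + h := by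
    rw [add_mul, one_mul]
    exact Nat.add_le_add_right (Nat.div_mul_le_self _ _) _
  calc T.card * g ^ h = U.card * g ^ h := by rw [hUT]
    _ ≤ (4 * B / h + 1) ^ h * (U.image red).card * g ^ h := Nat.mul_le_mul_right _ hfib
    _ ≤ (4 * B / h + 1) ^ h * g ^ h * g ^ h := by
        refine Nat.mul_le_mul_right _ (Nat.mul_le_mul_left _ (hUim.trans hIm))
    _ = ((4 * B / h + 1) * h) ^ h := by
        rw [mul_assoc, ← mul_pow, hgg, mul_pow]
    _ ≤ (4 * B + h) ^ h := Nat.pow_le_pow_left hc2 _

theorem hc : S_HC := by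
  intro τ B H hH t T hT
  exact core (4 ^ τ) (2 ^ τ) B (by positivity) (by rw [← mul_pow]; norm_num) H hH t T hT

end W320.TF
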